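import Mathlib
import Pool.Agent.V11242.RN.Defs
import Pool.Agent.V11242.RN.EqDefs

/-!
# Relative densities, the oscillation reaping number, and the forcing language

A real number of the generic extension is given by a named subset of `ω`. Bounded pieces of named
sets are decided by finite sets of natural numbers, and relative frequencies are computed from
these finite sets.
-/

set_option autoImplicit false

namespace Pool.Agent.V11242.KO

open Pool.Agent.TH773.PSet Pool.Agent.V11242.RN Filter Cardinal

universe u

/-- the relative frequency `|A ∩ C ∩ n| / |C ∩ n|`, for finite sets `A`, `C` -/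
noncomputable def rat (A C : Finset ℕ) (n : ℕ) : ℝ :=
  (((A ∩ C).filter fun i => i < n).card : ℝ) / ((C.filter fun i => i < n).card : ℝ)

/-- Between `N` and `m` the relative frequencies of `A` in `C` differ by less than
`1 / (j + 1)`. -/
def Close (j N m : ℕ) (A C : Finset ℕ) : Prop :=
  ∀ n n', N ≤ n → n ≤ m → N ≤ n' → n' ≤ m → |rat A C n - rat A C n'| < 1 / ((j : ℝ) + 1)

section Forcing

variable {P : Type u} [Preorder P]

/-- The subset `x` of `ω` and the finite set `A` have the same elements below `m`. -/
def CutIs (x : ℕ → Set P) (m : ℕ) (A : Finset ℕ) : Set P :=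
  fall fun i => fall fun _ : i < m => BitIs x i (decide (i ∈ A))

/-- The relative frequencies of `s` in `r` form a Cauchy sequence: for every `j` there is `N` such
that, for every `m`, the relative frequencies between `N` and `m` differ by less than
`1 / (j + 1)`; the last statement is expressed by all finite sets `A`, `C` which have the same
elements below `m` as `s` and `r`. -/
def NonOsc (s r : ℕ → Set P) : Set P :=
  fall fun j : ℕ => fex fun N : ℕ => fall fun m : ℕ => fall fun A : Finset ℕ =>
    fall fun C : Finset ℕ => fall fun _ : ¬ Close j N m A C =>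
      fnot (fand (CutIs s m A) (CutIs r m C))

variable (P) in
/-- There is a family `r` of infinite subsets of `ω`, indexed by `K`, such that for every
subset `s` of `ω` there is `k` such that the relative density of `s` in `r k` does not
oscillate. -/
def RoscFamily (K : Type) : Set P :=
  fex fun r : K → ℕ → Set P => fand (fall fun k => Inf (r k))
    (fall fun s : ℕ → Set P => fex fun k => NonOsc s (r k))

variable (P) in
/-- The sentence `PsiFor K`, in the forcing language. -/
def PsiHolds (K : Type) : Set P := fand (RoscFamily P K) (NoNullCover P K)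

end Forcing

/-! ### The same sentence, outside of the forcing language -/

/-- The relative frequencies of `s` in `r` form a Cauchy sequence. -/
def NonOscFor (s r : Set ℕ) : Prop :=
  ∀ j : ℕ, ∃ N : ℕ, ∀ m : ℕ, ∀ A C : Finset ℕ, ¬ Close j N m A C →
    ¬ ((∀ i, i < m → (i ∈ s ↔ i ∈ A)) ∧ (∀ i, i < m → (i ∈ r ↔ i ∈ C)))

/-- There is a family `r` of infinite subsets of `ω`, indexed by `K`, such that for every
subset `s` of `ω` there is `k` such that the relative density of `s` in `r k` does not oscillate;
and for every family of null sets which is indexed by `K` there is an element of `2^ω` outside of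
all of them. -/
def PsiFor (K : Type) : Prop :=
  (∃ r : K → Set ℕ, (∀ k, ∀ N, ∃ n, N ≤ n ∧ n ∈ r k) ∧ ∀ s : Set ℕ, ∃ k, NonOscFor s (r k)) ∧
  (∀ C : K → ℕ → Set (List Bool), (∀ k, NullCode (C k)) →
    ∃ x : ℕ → Bool, ∀ k, ¬ InCoded x (C k))

/-! ### The cardinals -/

/-- the relative frequency `|S ∩ R ∩ n| / |R ∩ n|` -/
noncomputable def freq (S R : Set ℕ) (n : ℕ) : ℝ :=
  ((S ∩ R ∩ Set.Iio n).ncard : ℝ) / ((R ∩ Set.Iio n).ncard : ℝ)

/-- the lower density of `S` in `R` -/
noncomputable def lowerDens (R S : Set ℕ) : ℝ := liminf (freq S R) atTop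

/-- the upper density of `S` in `R` -/
noncomputable def upperDens (R S : Set ℕ) : ℝ := limsup (freq S R) atTop

/-- The oscillation reaping number: the least size of a family `F` of infinite subsets of `ω` such
that for every infinite-coinfinite `S` there is `R ∈ F` such that the lower and the upper density
of `S` in `R` are equal. -/
noncomputable def rOsc : Cardinal.{0} :=
  sInf {c | ∃ F : Set (Set ℕ), (∀ R ∈ F, R.Infinite) ∧
    (∀ S : Set ℕ, S.Infinite → Sᶜ.Infinite → ∃ R ∈ F, lowerDens R S = upperDens R S) ∧ #F = c}

/-- The covering number of the null ideal of `2^ω`. -/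
noncomputable def covNull : Cardinal.{0} :=
  sInf {c | ∃ F : Set (Set (ℕ → Bool)), (∀ X ∈ F, lam X = 0) ∧ ⋃₀ F = Set.univ ∧ #F = c}

end Pool.Agent.V11242.KO
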