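import Mathlib

/-!
# Subsequences with almost surely convergent Cesàro means

Every sequence of measurable sets has a subsequence such that for almost all points the relative
frequencies of the sets containing the point converge. (This is the case of indicator functions of
a theorem of Komlós.)
-/

set_option autoImplicit false
set_option linter.unusedSectionVars false

namespace Pool.Agent.V11242.KO

open Filter Topology MeasureTheory Set

/-- the means of the first `k` terms -/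
noncomputable def mean (b : ℕ → ℝ) (k : ℕ) : ℝ := (∑ i ∈ Finset.range k, b i) / k

/-- the times -/
def kk (m : ℕ) : ℕ := (m + 1) ^ 4

theorem kk_pos (m : ℕ) : 0 < kk m := by unfold kk; positivity

theorem kk_strictMono : StrictMono kk := fun m n h => by
  unfold kk
  exact Nat.pow_lt_pow_left (by omega) (by norm_num)

theorem abs_mean_sub {b : ℕ → ℝ} (hb : ∀ i, 0 ≤ b i ∧ b i ≤ 1) {l k : ℕ} (hl : 0 < l)
    (hlk : l ≤ k) : |mean b k - mean b l| ≤ 2 * ((k : ℝ) - l) / l := by
  have hl' : (0 : ℝ) < l := by exact_mod_cast hl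
  have hk' : (0 : ℝ) < k := by exact_mod_cast hl.trans_le hlk
  have hlk' : (l : ℝ) ≤ k := by exact_mod_cast hlk
  unfold mean
  rw [← Finset.sum_range_add_sum_Ico b hlk]
  have h1 : 0 ≤ ∑ i ∈ Finset.range l, b i := Finset.sum_nonneg fun i _ => (hb i).1
  have h2 : ∑ i ∈ Finset.range l, b i ≤ l := by
    refine (Finset.sum_le_sum (g := fun _ => (1 : ℝ)) fun i _ => (hb i).2).trans ?_
    simp
  have h3 : 0 ≤ ∑ i ∈ Finset.Ico l k, b i := Finset.sum_nonneg fun i _ => (hb i).1
  have h4 : ∑ i ∈ Finset.Ico l k, b i ≤ (k : ℝ) - l := by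
    refine (Finset.sum_le_sum (g := fun _ => (1 : ℝ)) fun i _ => (hb i).2).trans ?_
    simp [Nat.cast_sub hlk]
  set s := ∑ i ∈ Finset.range l, b i
  set t := ∑ i ∈ Finset.Ico l k, b i
  have h5 : (s + t) / k - s / l = (t * l - s * (k - l)) / (k * l) := by
    field_simp
    ring
  rw [h5, abs_div, abs_of_pos (mul_pos hk' hl'), div_le_div_iff₀ (mul_pos hk' hl') hl']
  have h6 : |t * l - s * (k - l)| ≤ 2 * ((k : ℝ) - l) * l := by
    have h7 : 0 ≤ (k : ℝ) - l := by linarith
    rw [abs_le]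
    constructor
    · nlinarith [mul_nonneg h3 hl'.le, mul_le_mul_of_nonneg_right h2 h7]
    · nlinarith [mul_le_mul_of_nonneg_right h4 hl'.le, mul_nonneg h1 h7, mul_nonneg h7 hl'.le]
  have h8 : 0 ≤ 2 * ((k : ℝ) - l) := by linarith
  calc |t * l - s * (k - l)| * l ≤ 2 * ((k : ℝ) - l) * l * l :=
        mul_le_mul_of_nonneg_right h6 hl'.le
    _ ≤ 2 * ((k : ℝ) - l) * (k * l) := by
        have := mul_le_mul_of_nonneg_left hlk' (mul_nonneg h8 hl'.le)
        nlinarith

theorem cauchy_of_summable {b : ℕ → ℝ} (hb : ∀ i, 0 ≤ b i ∧ b i ≤ 1)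
    (hs : Summable fun m : ℕ => ((m : ℝ) + 1) ^ 2 * (mean b (kk (m + 1)) - mean b (kk m)) ^ 2) :
    ∃ l, Tendsto (mean b) atTop (𝓝 l) := by
  have h0 : Summable fun m : ℕ => (1 : ℝ) / ((m : ℝ) + 1) ^ 2 := by
    have := (summable_nat_add_iff 1).2 (Real.summable_one_div_nat_pow (p := 2).2 (by norm_num))
    refine this.congr fun m => ?_
    push_cast
    rfl
  have h1 : Summable fun m : ℕ => dist (mean b (kk m)) (mean b (kk (m + 1))) := by
    refine Summable.of_nonneg_of_le (fun m => dist_nonneg) (fun m => ?_) (h0.add hs)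
    rw [dist_comm, Real.dist_eq]
    set D := mean b (kk (m + 1)) - mean b (kk m)
    have hM : (0 : ℝ) < (m : ℝ) + 1 := by positivity
    have h2 : |D| = (1 / ((m : ℝ) + 1)) * (((m : ℝ) + 1) * |D|) := by
      field_simp
    have h3 : (1 / ((m : ℝ) + 1)) ^ 2 = 1 / ((m : ℝ) + 1) ^ 2 := by
      rw [div_pow, one_pow]
    have h4 : (((m : ℝ) + 1) * |D|) ^ 2 = ((m : ℝ) + 1) ^ 2 * D ^ 2 := by
      rw [mul_pow, sq_abs]
    rw [← h3, ← h4]
    generalize 1 / ((m : ℝ) + 1) = x at h2 ⊢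
    generalize ((m : ℝ) + 1) * |D| = y at h2 ⊢
    rw [h2]
    nlinarith [sq_nonneg (x - y), sq_nonneg x, sq_nonneg y]
  obtain ⟨l, hl⟩ := cauchySeq_tendsto_of_complete (cauchySeq_of_summable_dist h1)
  refine ⟨l, ?_⟩
  rw [Metric.tendsto_atTop]
  intro ε hε
  obtain ⟨M1, hM1⟩ := (Metric.tendsto_atTop.1 hl) (ε / 2) (by linarith)
  obtain ⟨M2, hM2⟩ := exists_nat_gt (60 / ε)
  let M := max M1 M2
  refine ⟨kk M, fun k hk => ?_⟩
  -- the block of `k`
  obtain ⟨m, hm, hm1, hm2⟩ : ∃ m, M ≤ m ∧ kk m ≤ k ∧ k < kk (m + 1) := by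
    classical
    have hex : ∃ m, k < kk (m + 1) := ⟨k, by
      have := kk_strictMono.le_apply (x := k + 1)
      omega⟩
    have h2 := Nat.find_spec hex
    refine ⟨Nat.find hex, ?_, ?_, h2⟩
    · by_contra hlt
      have h3 := kk_strictMono.monotone (Nat.succ_le_of_lt (not_le.1 hlt))
      simp only [Nat.succ_eq_add_one] at h3
      omega
    · rcases h3 : Nat.find hex with _ | m'
      · have := kk_strictMono.monotone (Nat.zero_le M)
        omega
      · have := Nat.find_min hex (m := m') (by omega)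
        omega
  have h2 := hM1 m ((le_max_left _ _).trans hm)
  have h3 := abs_mean_sub hb (kk_pos m) hm1
  have hMp : (0 : ℝ) < (m : ℝ) + 1 := by positivity
  have h4 : 2 * ((k : ℝ) - kk m) / kk m ≤ 30 / ((m : ℝ) + 1) := by
    have h5 : (k : ℝ) ≤ ((m : ℝ) + 2) ^ 4 := by
      have : (k : ℝ) ≤ (kk (m + 1) : ℕ) := by exact_mod_cast hm2.le
      refine this.trans (le_of_eq ?_)
      unfold kk
      push_cast
      ring
    have h6 : ((kk m : ℕ) : ℝ) = ((m : ℝ) + 1) ^ 4 := by
      unfold kk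
      push_cast
      ring
    rw [h6, div_le_div_iff₀ (by positivity) hMp]
    set y := (m : ℝ) + 1
    have h7 : (m : ℝ) + 2 = y + 1 := by
      show (m : ℝ) + 2 = (m : ℝ) + 1 + 1
      ring
    rw [h7] at h5
    have hy : 1 ≤ y := by
      have : (0 : ℝ) ≤ m := Nat.cast_nonneg m
      show (1 : ℝ) ≤ (m : ℝ) + 1
      linarith
    have h8 : (y + 1) ^ 4 - y ^ 4 ≤ 15 * y ^ 3 := by
      have h9 : 0 ≤ y ^ 2 := by positivity
      nlinarith [mul_le_mul_of_nonneg_left hy h9, mul_le_mul_of_nonneg_left hy (zero_le_one.trans hy),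
        mul_nonneg h9 (sub_nonneg.2 hy)]
    have h9 : (k : ℝ) - y ^ 4 ≤ 15 * y ^ 3 := by linarith
    calc 2 * ((k : ℝ) - y ^ 4) * y ≤ 2 * (15 * y ^ 3) * y := by
          have := mul_le_mul_of_nonneg_right h9 (zero_le_one.trans hy)
          linarith
      _ = 30 * y ^ 4 := by ring
  have h5 : 30 / ((m : ℝ) + 1) < ε / 2 := by
    rw [div_lt_iff₀ hMp]
    have h6 : (M2 : ℝ) ≤ m := by exact_mod_cast (le_max_right _ _).trans hm
    rw [div_lt_iff₀ hε] at hM2
    nlinarith
  rw [Real.dist_eq] at h2 ⊢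
  have h6 := abs_sub_abs_le_abs_sub (mean b k - l) (mean b k - mean b (kk m))
  have h7 : |mean b k - l| ≤ |mean b k - mean b (kk m)| + |mean b (kk m) - l| :=
    abs_sub_le _ _ _
  linarith

/-! ### The choice of the subsequence -/

theorem exists_subseq (g : ℕ → ℕ → ℝ) (hg : ∀ i j, 0 ≤ g i j ∧ g i j ≤ 1) :
    ∃ r : ℕ → ℕ, StrictMono r ∧ ∃ a : ℝ, 0 ≤ a ∧ a ≤ 1 ∧
      ∀ i j, i < j → |g (r j) (r i) - a| ≤ 2 * (1 / 2 : ℝ) ^ i := by
  have hc : IsCompact (Set.pi Set.univ fun _ : ℕ => Icc (0 : ℝ) 1) :=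
    isCompact_univ_pi fun _ => isCompact_Icc
  obtain ⟨a, ha, φ, hφ, hφa⟩ := hc.tendsto_subseq (x := g) fun n m _ => hg n m
  have ha' : ∀ m, a m ∈ Icc (0 : ℝ) 1 := fun m => ha m (mem_univ m)
  obtain ⟨b, hb, ψ, hψ, hψb⟩ := (isCompact_Icc (a := (0 : ℝ)) (b := 1)).tendsto_subseq
    (x := fun n => a (φ n)) fun n => ha' _
  let θ : ℕ → ℕ := fun n => φ (ψ n)
  have hθ : StrictMono θ := hφ.comp hψ
  have h1 : ∀ m, Tendsto (fun n => g (θ n) m) atTop (𝓝 (a m)) := fun m =>
    ((tendsto_pi_nhds.1 hφa) m).comp hψ.tendsto_atTop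
  have h2 : Tendsto (fun n => a (θ n)) atTop (𝓝 b) := hψb
  have h3 : ∀ j c : ℕ, ∃ n, c < n ∧ (∀ m ∈ Finset.range (θ c + 1),
      |g (θ n) m - a m| ≤ (1 / 2 : ℝ) ^ j) ∧ |a (θ n) - b| ≤ (1 / 2 : ℝ) ^ j := by
    intro j c
    have hp : (0 : ℝ) < (1 / 2) ^ j := by positivity
    have h4 : ∀ᶠ n in atTop, ∀ m ∈ Finset.range (θ c + 1),
        |g (θ n) m - a m| ≤ (1 / 2 : ℝ) ^ j := by
      rw [Filter.eventually_all_finset]
      intro m _
      have := (Metric.tendsto_nhds.1 (h1 m)) _ hp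
      exact this.mono fun n hn => le_of_lt hn
    have h5 : ∀ᶠ n in atTop, |a (θ n) - b| ≤ (1 / 2 : ℝ) ^ j := by
      have := (Metric.tendsto_nhds.1 h2) _ hp
      exact this.mono fun n hn => le_of_lt hn
    obtain ⟨n, ⟨hn1, hn2⟩, hn3⟩ := ((h4.and h5).and (eventually_gt_atTop c)).exists
    exact ⟨n, hn3, hn1, hn2⟩
  choose N hN1 hN2 hN3 using h3
  let n : ℕ → ℕ := fun j => Nat.rec (N 0 0) (fun j c => N (j + 1) c) j
  have hn : ∀ j, n (j + 1) = N (j + 1) (n j) := fun j => rfl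
  have hnm : StrictMono n := strictMono_nat_of_lt_succ fun j => by
    rw [hn]
    exact hN1 _ _
  have hlim : ∀ j, |a (θ (n j)) - b| ≤ (1 / 2 : ℝ) ^ j := by
    intro j
    cases j with
    | zero => exact hN3 0 0
    | succ j => rw [hn]; exact hN3 _ _
  refine ⟨fun j => θ (n j), hθ.comp hnm, b, hb.1, hb.2, fun i j hij => ?_⟩
  obtain ⟨j', rfl⟩ : ∃ j', j = j' + 1 := ⟨j - 1, by omega⟩
  have h4 : |g (θ (n (j' + 1))) (θ (n i)) - a (θ (n i))| ≤ (1 / 2 : ℝ) ^ (j' + 1) := by
    rw [hn]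
    refine hN2 _ _ _ (Finset.mem_range.2 (Nat.lt_succ_of_le ?_))
    exact hθ.monotone (hnm.monotone (Nat.le_of_lt_succ hij))
  have h5 : ((1 : ℝ) / 2) ^ (j' + 1) ≤ (1 / 2) ^ i :=
    pow_le_pow_of_le_one (by norm_num) (by norm_num) hij.le
  have h6 : |g (θ (n (j' + 1))) (θ (n i)) - b| ≤
      |g (θ (n (j' + 1))) (θ (n i)) - a (θ (n i))| + |a (θ (n i)) - b| := abs_sub_le _ _ _
  have := hlim i
  show |g (θ (n (j' + 1))) (θ (n i)) - b| ≤ _
  linarith

theorem gram_bound {G : ℕ → ℕ → ℝ} {a : ℝ} (hG : ∀ i j, i ≠ j →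
      |G i j - a| ≤ 2 * (1 / 2 : ℝ) ^ i + 2 * (1 / 2 : ℝ) ^ j) (hd : ∀ i, |G i i - a| ≤ 1)
    {c : ℕ → ℝ} {δ : ℝ} (hδ : 0 ≤ δ) {l : ℕ} (h1 : ∀ i, |c i| ≤ δ)
    (h2 : ∑ i ∈ Finset.range l, |c i| ≤ 2) (h3 : ∑ i ∈ Finset.range l, c i = 0) :
    ∑ i ∈ Finset.range l, ∑ j ∈ Finset.range l, c i * c j * G i j ≤ 18 * δ := by
  have e1 : ∑ i ∈ Finset.range l, ∑ j ∈ Finset.range l, c i * c j * G i j =
      ∑ i ∈ Finset.range l, ∑ j ∈ Finset.range l, c i * c j * (G i j - a) := by
    have h4 : ∑ i ∈ Finset.range l, ∑ j ∈ Finset.range l, c i * c j * a = 0 := by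
      simp only [mul_assoc]
      simp only [← Finset.mul_sum, ← Finset.sum_mul]
      rw [h3]
      simp
    rw [← sub_eq_zero, ← Finset.sum_sub_distrib]
    rw [← h4]
    refine Finset.sum_congr rfl fun i _ => ?_
    rw [← Finset.sum_sub_distrib]
    exact Finset.sum_congr rfl fun j _ => by ring
  rw [e1]
  have hgeo : ∑ i ∈ Finset.range l, |c i| * (1 / 2 : ℝ) ^ i ≤ δ * 2 := by
    calc ∑ i ∈ Finset.range l, |c i| * (1 / 2 : ℝ) ^ i
        ≤ ∑ i ∈ Finset.range l, δ * (1 / 2 : ℝ) ^ i :=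
          Finset.sum_le_sum fun i _ => mul_le_mul_of_nonneg_right (h1 i) (by positivity)
      _ = δ * ∑ i ∈ Finset.range l, (1 / 2 : ℝ) ^ i := by rw [Finset.mul_sum]
      _ ≤ δ * 2 := by
          refine mul_le_mul_of_nonneg_left ?_ hδ
          exact (summable_geometric_two.sum_le_tsum _ fun _ _ => by positivity).trans
            (le_of_eq tsum_geometric_two)
  have hnn : 0 ≤ ∑ i ∈ Finset.range l, |c i| := Finset.sum_nonneg fun i _ => abs_nonneg _
  have hbound : ∀ i j, c i * c j * (G i j - a) ≤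
      2 * (|c i| * (1 / 2 : ℝ) ^ i) * |c j| + 2 * (|c j| * (1 / 2 : ℝ) ^ j) * |c i| +
        (if i = j then δ * |c i| else 0) := by
    intro i j
    have h4 : c i * c j * (G i j - a) ≤ |c i| * |c j| * |G i j - a| := by
      rw [← abs_mul, ← abs_mul]
      exact le_abs_self _
    refine h4.trans ?_
    have h5 : 0 ≤ |c i| * |c j| := mul_nonneg (abs_nonneg _) (abs_nonneg _)
    by_cases hij : i = j
    · subst hij
      rw [if_pos rfl]
      have h6 : |c i| * |c i| * |G i i - a| ≤ |c i| * |c i| * 1 :=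
        mul_le_mul_of_nonneg_left (hd i) h5
      have h7 : |c i| * |c i| ≤ δ * |c i| := mul_le_mul_of_nonneg_right (h1 i) (abs_nonneg _)
      have h8 : 0 ≤ 2 * (|c i| * (1 / 2 : ℝ) ^ i) * |c i| := by positivity
      linarith
    · rw [if_neg hij]
      have h6 := mul_le_mul_of_nonneg_left (hG i j hij) h5
      refine h6.trans (le_of_eq ?_)
      ring
  calc ∑ i ∈ Finset.range l, ∑ j ∈ Finset.range l, c i * c j * (G i j - a)
      ≤ ∑ i ∈ Finset.range l, ∑ j ∈ Finset.range l,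
        (2 * (|c i| * (1 / 2 : ℝ) ^ i) * |c j| + 2 * (|c j| * (1 / 2 : ℝ) ^ j) * |c i| +
          (if i = j then δ * |c i| else 0)) :=
        Finset.sum_le_sum fun i _ => Finset.sum_le_sum fun j _ => hbound i j
    _ = 2 * (∑ i ∈ Finset.range l, |c i| * (1 / 2 : ℝ) ^ i) * (∑ i ∈ Finset.range l, |c i|) +
        2 * (∑ i ∈ Finset.range l, |c i| * (1 / 2 : ℝ) ^ i) * (∑ i ∈ Finset.range l, |c i|) +
        δ * ∑ i ∈ Finset.range l, |c i| := by
        simp only [Finset.sum_add_distrib]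
        congr 1
        · congr 1
          · simp only [← Finset.mul_sum, ← Finset.sum_mul]
          · rw [Finset.sum_comm]
            simp only [← Finset.mul_sum, ← Finset.sum_mul]
        · rw [Finset.mul_sum]
          refine Finset.sum_congr rfl fun i hi => ?_
          rw [Finset.sum_ite_eq (Finset.range l) i, if_pos hi]
    _ ≤ 2 * (δ * 2) * 2 + 2 * (δ * 2) * 2 + δ * 2 := by
        have h4 : 2 * (∑ i ∈ Finset.range l, |c i| * (1 / 2 : ℝ) ^ i) *
            (∑ i ∈ Finset.range l, |c i|) ≤ 2 * (δ * 2) * 2 := by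
          refine mul_le_mul (mul_le_mul_of_nonneg_left hgeo (by norm_num)) h2 hnn ?_
          positivity
        have h5 := mul_le_mul_of_nonneg_left h2 hδ
        linarith
    _ = 18 * δ := by ring

/-! ### The theorem -/

section Meas

variable {Ω : Type*} [MeasurableSpace Ω] {μ : Measure Ω} [IsProbabilityMeasure μ]

/-- the characteristic function of `E` as a real-valued function -/
noncomputable def ind (E : Set Ω) (ω : Ω) : ℝ := E.indicator (fun _ => 1) ω

theorem ind_nonneg (E : Set Ω) (ω : Ω) : 0 ≤ ind E ω := indicator_nonneg (fun _ _ => zero_le_one) ω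

theorem ind_le_one (E : Set Ω) (ω : Ω) : ind E ω ≤ 1 :=
  indicator_le_self' (fun _ _ => zero_le_one) ω

theorem ind_mul (E F : Set Ω) (ω : Ω) : ind E ω * ind F ω = ind (E ∩ F) ω := by
  classical
  unfold ind
  simp only [indicator_apply, mem_inter_iff]
  split_ifs <;> simp_all

theorem measurable_ind {E : Set Ω} (hE : MeasurableSet E) : Measurable (ind E) :=
  measurable_const.indicator hE

theorem integrable_ind {E : Set Ω} (hE : MeasurableSet E) : Integrable (ind E) μ :=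
  (integrable_const (1 : ℝ)).indicator hE

theorem integral_ind {E : Set Ω} (hE : MeasurableSet E) : ∫ ω, ind E ω ∂μ = μ.real E := by
  unfold ind
  rw [integral_indicator_const _ hE]
  simp

theorem integral_sq {E : ℕ → Set Ω} (hE : ∀ i, MeasurableSet (E i)) (c : ℕ → ℝ) (l : ℕ) :
    ∫ ω, (∑ i ∈ Finset.range l, c i * ind (E i) ω) ^ 2 ∂μ =
      ∑ i ∈ Finset.range l, ∑ j ∈ Finset.range l, c i * c j * μ.real (E i ∩ E j) := by
  have h1 : ∀ ω, (∑ i ∈ Finset.range l, c i * ind (E i) ω) ^ 2 =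
      ∑ i ∈ Finset.range l, ∑ j ∈ Finset.range l, c i * c j * ind (E i ∩ E j) ω := by
    intro ω
    rw [sq, Finset.sum_mul_sum]
    refine Finset.sum_congr rfl fun i _ => Finset.sum_congr rfl fun j _ => ?_
    rw [← ind_mul]
    ring
  simp only [h1]
  have hint : ∀ i j, Integrable (fun ω => c i * c j * ind (E i ∩ E j) ω) μ := fun i j =>
    (integrable_ind ((hE i).inter (hE j))).const_mul _
  rw [integral_finset_sum _ fun i _ => integrable_finset_sum _ fun j _ => hint i j]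
  refine Finset.sum_congr rfl fun i _ => ?_
  rw [integral_finset_sum _ fun j _ => hint i j]
  refine Finset.sum_congr rfl fun j _ => ?_
  rw [integral_const_mul, integral_ind ((hE i).inter (hE j))]

theorem mean_sub_eq (b : ℕ → ℝ) {k l : ℕ} (hkl : k ≤ l) :
    mean b l - mean b k = ∑ i ∈ Finset.range l,
      ((1 : ℝ) / l - if i < k then (1 : ℝ) / k else 0) * b i := by
  unfold mean
  simp only [sub_mul, Finset.sum_sub_distrib]
  congr 1
  · rw [← Finset.mul_sum]
    ring
  · simp only [ite_mul, zero_mul]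
    rw [← Finset.sum_filter]
    have : (Finset.range l).filter (fun i => i < k) = Finset.range k := by
      ext i
      simp only [Finset.mem_filter, Finset.mem_range]
      omega
    rw [this, ← Finset.mul_sum]
    ring

theorem integral_mean_sub {E : ℕ → Set Ω} (hE : ∀ i, MeasurableSet (E i)) {a : ℝ} (ha : 0 ≤ a)
    (ha1 : a ≤ 1) (hG : ∀ i j, i < j → |μ.real (E j ∩ E i) - a| ≤ 2 * (1 / 2 : ℝ) ^ i)
    {k l : ℕ} (hk : 0 < k) (hkl : k ≤ l) :
    ∫ ω, (mean (fun i => ind (E i) ω) l - mean (fun i => ind (E i) ω) k) ^ 2 ∂μ ≤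
      18 * (1 / (k : ℝ)) := by
  have hk' : (0 : ℝ) < k := by exact_mod_cast hk
  have hl' : (0 : ℝ) < l := by exact_mod_cast hk.trans_le hkl
  have hkl' : (k : ℝ) ≤ l := by exact_mod_cast hkl
  have hinv : (1 : ℝ) / l ≤ 1 / k := one_div_le_one_div_of_le hk' hkl'
  simp only [fun ω => mean_sub_eq (fun i => ind (E i) ω) hkl]
  rw [integral_sq hE]
  refine gram_bound (a := a) (fun i j hij => ?_) (fun i => ?_) (by positivity) (fun i => ?_) ?_ ?_
  · rcases lt_or_gt_of_ne hij with h | h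
    · rw [inter_comm]
      refine (hG i j h).trans ?_
      have : (0 : ℝ) ≤ 2 * (1 / 2) ^ j := by positivity
      linarith
    · refine (hG j i h).trans ?_
      have : (0 : ℝ) ≤ 2 * (1 / 2) ^ i := by positivity
      linarith
  · have h1 : 0 ≤ μ.real (E i ∩ E i) := measureReal_nonneg
    have h2 : μ.real (E i ∩ E i) ≤ 1 := measureReal_le_one
    rw [abs_le]
    constructor <;> linarith
  · have h1 : (0 : ℝ) ≤ 1 / l := by positivity
    have h2 : (0 : ℝ) ≤ 1 / k := by positivity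
    split_ifs
    · rw [abs_le]
      constructor <;> linarith
    · rw [sub_zero, abs_of_nonneg h1]
      exact hinv
  · have h1 : ∀ i ∈ Finset.range l, |(1 : ℝ) / l - if i < k then (1 : ℝ) / k else 0| ≤
        1 / l + if i < k then (1 : ℝ) / k else 0 := by
      intro i _
      refine (abs_sub _ _).trans (le_of_eq ?_)
      rw [abs_of_nonneg (by positivity : (0 : ℝ) ≤ 1 / l)]
      congr 1
      split_ifs
      · exact abs_of_nonneg (by positivity)
      · exact abs_zero
    refine (Finset.sum_le_sum h1).trans ?_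
    rw [Finset.sum_add_distrib, ← Finset.sum_filter]
    have h2 : (Finset.range l).filter (fun i => i < k) = Finset.range k := by
      ext i
      simp only [Finset.mem_filter, Finset.mem_range]
      omega
    rw [h2]
    simp only [Finset.sum_const, Finset.card_range, nsmul_eq_mul]
    rw [mul_one_div_cancel hl'.ne', mul_one_div_cancel hk'.ne']
    norm_num
  · rw [Finset.sum_sub_distrib, ← Finset.sum_filter]
    have h2 : (Finset.range l).filter (fun i => i < k) = Finset.range k := by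
      ext i
      simp only [Finset.mem_filter, Finset.mem_range]
      omega
    rw [h2]
    simp only [Finset.sum_const, Finset.card_range, nsmul_eq_mul]
    rw [mul_one_div_cancel hl'.ne', mul_one_div_cancel hk'.ne']
    norm_num

theorem measurable_mean {E : ℕ → Set Ω} (hE : ∀ i, MeasurableSet (E i)) (k : ℕ) :
    Measurable fun ω => mean (fun i => ind (E i) ω) k := by
  unfold mean
  exact (Finset.measurable_sum _ fun i _ => measurable_ind (hE i)).div_const _

/-- Every sequence of measurable sets has a subsequence such that for almost all points the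
relative frequencies converge. -/
theorem exists_convergent {E : ℕ → Set Ω} (hE : ∀ i, MeasurableSet (E i)) :
    ∃ r : ℕ → ℕ, StrictMono r ∧
      ∀ᵐ ω ∂μ, ∃ l, Tendsto (mean fun i => ind (E (r i)) ω) atTop (𝓝 l) := by
  obtain ⟨r, hr, a, ha, ha1, hG⟩ := exists_subseq (fun i j => μ.real (E i ∩ E j))
    fun i j => ⟨measureReal_nonneg, measureReal_le_one⟩
  refine ⟨r, hr, ?_⟩
  let D : ℕ → Ω → ℝ := fun m ω => ((m : ℝ) + 1) ^ 2 *
    (mean (fun i => ind (E (r i)) ω) (kk (m + 1)) - mean (fun i => ind (E (r i)) ω) (kk m)) ^ 2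
  have hD0 : ∀ m ω, 0 ≤ D m ω := fun m ω => by positivity
  have hDm : ∀ m, Measurable (D m) := fun m =>
    (((measurable_mean (fun i => hE (r i)) _).sub
      (measurable_mean (fun i => hE (r i)) _)).pow_const 2).const_mul _
  have hmean : ∀ (b : ℕ → ℝ), (∀ i, 0 ≤ b i ∧ b i ≤ 1) → ∀ k, |mean b k| ≤ 1 := by
    intro b hb k
    unfold mean
    have h1 : 0 ≤ ∑ i ∈ Finset.range k, b i := Finset.sum_nonneg fun i _ => (hb i).1
    have h2 : ∑ i ∈ Finset.range k, b i ≤ k := by
      refine (Finset.sum_le_sum (g := fun _ => (1 : ℝ)) fun i _ => (hb i).2).trans ?_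
      simp
    rw [abs_of_nonneg (div_nonneg h1 (Nat.cast_nonneg _))]
    exact div_le_one_of_le₀ h2 (Nat.cast_nonneg _)
  have hDi : ∀ m, Integrable (D m) μ := by
    intro m
    refine Integrable.of_bound (hDm m).aestronglyMeasurable (((m : ℝ) + 1) ^ 2 * 4)
      (ae_of_all _ fun ω => ?_)
    rw [Real.norm_eq_abs, abs_of_nonneg (hD0 m ω)]
    refine mul_le_mul_of_nonneg_left ?_ (by positivity)
    have hb : ∀ i, 0 ≤ ind (E (r i)) ω ∧ ind (E (r i)) ω ≤ 1 := fun i =>
      ⟨ind_nonneg _ _, ind_le_one _ _⟩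
    have h1 := abs_le.1 (hmean _ hb (kk (m + 1)))
    have h2 := abs_le.1 (hmean _ hb (kk m))
    nlinarith
  have hDI : ∀ m, ∫ ω, D m ω ∂μ ≤ 18 * (1 / ((m : ℝ) + 1) ^ 2) := by
    intro m
    have h1 := integral_mean_sub (μ := μ) (fun i => hE (r i)) ha ha1
      (fun i j hij => hG i j hij) (kk_pos m) (kk_strictMono (Nat.lt_succ_self m)).le
    have h2 : ∫ ω, D m ω ∂μ = ((m : ℝ) + 1) ^ 2 * ∫ ω, (mean (fun i => ind (E (r i)) ω)
        (kk (m + 1)) - mean (fun i => ind (E (r i)) ω) (kk m)) ^ 2 ∂μ := by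
      rw [← integral_const_mul]
    rw [h2]
    refine (mul_le_mul_of_nonneg_left h1 (by positivity)).trans (le_of_eq ?_)
    have h3 : ((kk m : ℕ) : ℝ) = ((m : ℝ) + 1) ^ 4 := by
      unfold kk
      push_cast
      ring
    rw [h3]
    have h4 : (0 : ℝ) < (m : ℝ) + 1 := by positivity
    field_simp
  have h0 : Summable fun m : ℕ => 18 * ((1 : ℝ) / ((m : ℝ) + 1) ^ 2) := by
    have := (summable_nat_add_iff 1).2 (Real.summable_one_div_nat_pow (p := 2).2 (by norm_num))
    refine (this.mul_left 18).congr fun m => ?_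
    push_cast
    rfl
  have hsum : ∑' m, ∫⁻ ω, ENNReal.ofReal (D m ω) ∂μ ≠ ⊤ := by
    have h1 : ∀ m, ∫⁻ ω, ENNReal.ofReal (D m ω) ∂μ = ENNReal.ofReal (∫ ω, D m ω ∂μ) := fun m =>
      (ofReal_integral_eq_lintegral_ofReal (hDi m) (ae_of_all _ (hD0 m))).symm
    simp only [h1]
    refine ne_top_of_le_ne_top ?_ (ENNReal.tsum_le_tsum fun m => ENNReal.ofReal_le_ofReal (hDI m))
    rw [← ENNReal.ofReal_tsum_of_nonneg (fun m => by positivity) h0]
    exact ENNReal.ofReal_ne_top
  rw [← lintegral_tsum fun m => (hDm m).ennreal_ofReal.aemeasurable] at hsum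
  have h2 := ae_lt_top (Measurable.ennreal_tsum fun m => (hDm m).ennreal_ofReal) hsum
  filter_upwards [h2] with ω hω
  refine cauchy_of_summable (fun i => ⟨ind_nonneg _ _, ind_le_one _ _⟩) ?_
  have h3 := ENNReal.summable_toReal hω.ne
  refine h3.congr fun m => ?_
  exact ENNReal.toReal_ofReal (hD0 m ω)

end Meas

end Pool.Agent.V11242.KO
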