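import Mathlib
import Pool.Agent.V11242.RN.Forced
import Pool.Agent.V11242.KO.Defs
import Pool.Agent.V11242.KO.Komlos

/-!
# Random reals and the oscillation reaping number
-/

set_option autoImplicit false
set_option linter.unusedSectionVars false

namespace Pool.Agent.V11242.KO

open Pool.Agent.TH773.PSet Pool.Agent.V11242.RF Pool.Agent.V11242.RN MeasureTheory Set Filter
  Topology

universe u v

/-! ### Finite combinatorics -/

theorem filter_range_eq {r : ℕ → ℕ} (hr : StrictMono r) {m : ℕ} {C : Finset ℕ}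
    (hC : ∀ i, i < m → (i ∈ range r ↔ i ∈ C)) {n : ℕ} (hn : n ≤ m) :
    C.filter (fun i => i < n) = (Finset.range (Nat.find (⟨n, hr.id_le n⟩ : ∃ k, n ≤ r k))).image
      r := by
  classical
  set hex : ∃ k, n ≤ r k := ⟨n, hr.id_le n⟩
  ext i
  simp only [Finset.mem_filter, Finset.mem_image, Finset.mem_range]
  constructor
  · rintro ⟨h1, h2⟩
    obtain ⟨k, rfl⟩ := (hC i (h2.trans_le hn)).2 h1
    refine ⟨k, ?_, rfl⟩
    rw [Nat.lt_find_iff]
    intro k' hk'
    exact not_le.2 ((hr.monotone hk').trans_lt h2)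
  · rintro ⟨k, hk, rfl⟩
    have h1 : r k < n := not_le.1 (Nat.find_min hex hk)
    exact ⟨(hC _ (h1.trans_le hn)).1 ⟨k, rfl⟩, h1⟩

theorem rat_eq_mean {Ω : Type v} {E : ℕ → Set Ω} {ω : Ω} {r : ℕ → ℕ} (hr : StrictMono r) {m : ℕ}
    {A C : Finset ℕ} (hA : ∀ i, i < m → (ω ∈ E i ↔ i ∈ A))
    (hC : ∀ i, i < m → (i ∈ range r ↔ i ∈ C)) {n : ℕ} (hn : n ≤ m) :
    rat A C n = mean (fun i => ind (E (r i)) ω)
      (Nat.find (⟨n, hr.id_le n⟩ : ∃ k, n ≤ r k)) := by
  classical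
  unfold rat mean
  have h1 : (A ∩ C).filter (fun i => i < n) = (C.filter fun i => i < n).filter (· ∈ A) := by
    ext i
    simp only [Finset.mem_filter, Finset.mem_inter]
    tauto
  rw [h1, filter_range_eq hr hC hn, Finset.card_image_of_injective _ hr.injective,
    Finset.card_range]
  congr 1
  rw [Finset.filter_image, Finset.card_image_of_injective _ hr.injective, Finset.card_filter]
  push_cast
  refine Finset.sum_congr rfl fun i hi => ?_
  have h2 : r i < n := by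
    rw [Finset.mem_range] at hi
    exact not_le.1 (Nat.find_min (⟨n, hr.id_le n⟩ : ∃ k, n ≤ r k) hi)
  unfold ind
  by_cases h3 : ω ∈ E (r i)
  · rw [if_pos ((hA _ (h2.trans_le hn)).1 h3), indicator_of_mem h3]
  · rw [if_neg fun h => h3 ((hA _ (h2.trans_le hn)).2 h), indicator_of_notMem h3]

theorem close_of_tendsto {Ω : Type v} {E : ℕ → Set Ω} {ω : Ω} {r : ℕ → ℕ} (hr : StrictMono r)
    {l : ℝ} (hl : Tendsto (mean fun i => ind (E (r i)) ω) atTop (𝓝 l)) (j : ℕ) :
    ∃ N : ℕ, ∀ m, ∀ A C : Finset ℕ, (∀ i, i < m → (ω ∈ E i ↔ i ∈ A)) →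
      (∀ i, i < m → (i ∈ range r ↔ i ∈ C)) → Close j N m A C := by
  have hpos : (0 : ℝ) < 1 / ((j : ℝ) + 1) := by positivity
  obtain ⟨K, hK⟩ := Metric.cauchySeq_iff.1 hl.cauchySeq _ hpos
  refine ⟨r K, fun m A C hA hC n n' h1 h2 h3 h4 => ?_⟩
  rw [rat_eq_mean hr hA hC h2, rat_eq_mean hr hA hC h4, ← Real.dist_eq]
  have h5 : ∀ t : ℕ, r K ≤ t → K ≤ Nat.find (⟨t, hr.id_le t⟩ : ∃ k, t ≤ r k) := by
    intro t ht
    rw [Nat.le_find_iff]
    intro k hk
    exact not_le.2 ((hr hk).trans_le ht)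
  exact hK _ (h5 n h1) _ (h5 n' h3)

/-! ### Names -/

section Meas

variable {Ω : Type u} [MeasurableSpace Ω] {μ : Measure Ω} [IsProbabilityMeasure μ]

/-- the points at which the random set `x` has the same elements below `m` as `A` -/
def cut (x : ℕ → Set Ω) (m : ℕ) (A : Finset ℕ) : Set Ω :=
  ⋂ i : ℕ, ⋂ (_ : i < m), cond (decide (i ∈ A)) (x i) (x i)ᶜ

theorem mem_cut {x : ℕ → Set Ω} {m : ℕ} {A : Finset ℕ} {ω : Ω} :
    ω ∈ cut x m A ↔ ∀ i, i < m → (ω ∈ x i ↔ i ∈ A) := by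
  simp only [cut, mem_iInter]
  refine forall_congr' fun i => forall_congr' fun _ => ?_
  by_cases h : i ∈ A <;> simp [h]

theorem measurable_cut {x : ℕ → Set Ω} (hx : Meas x) (m : ℕ) (A : Finset ℕ) :
    MeasurableSet (cut x m A) :=
  MeasurableSet.iInter fun i => MeasurableSet.iInter fun _ => measurable_cond hx _ _

theorem cutIs_AE {N : ℕ → Set (Cond μ)} {x : ℕ → Set Ω} (hx : Meas x)
    (hN : ∀ i, meets (N i) = AE μ (x i)) (m : ℕ) (A : Finset ℕ) :
    CutIs N m A = AE μ (cut x m A) := by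
  unfold CutIs
  simp only [bitIs_AE hx hN, fall_AE]
  rfl

/-- the canonical name of the set `R` -/
def chkSet (μ : Measure Ω) (R : Set ℕ) : ℕ → Set (Cond μ) := fun n => {_p | n ∈ R}

theorem meets_chkSet (R : Set ℕ) (n : ℕ) :
    meets (chkSet μ R n) = AE μ {_ω | n ∈ R} := by
  by_cases h : n ∈ R
  · ext p
    constructor
    · intro _
      rw [mem_AE_iff]
      exact ae_of_all _ fun _ _ => h
    · intro _ q _
      exact ⟨q, le_rfl, q, h, le_rfl⟩
  · ext p
    constructor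
    · intro hp
      obtain ⟨r, -, s, hs, -⟩ := hp p le_rfl
      exact absurd hs h
    · intro hp
      rw [mem_AE_iff] at hp
      exfalso
      refine p.2.2 (measure_eq_zero_iff_ae_notMem.2 ?_)
      filter_upwards [hp] with x hx hx'
      exact h (hx hx')

theorem inf_chkSet {R : Set ℕ} (hR : R.Infinite) (p : Cond μ) : p ∈ Inf (chkSet μ R) := by
  intro N
  obtain ⟨n, hn, hN⟩ := hR.exists_gt N
  refine mem_fex.2 fun q _ => ⟨q, le_rfl, n, ?_⟩
  refine mem_fex.2 fun s _ => ⟨s, le_rfl, hN.le, ?_⟩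
  intro t _
  exact ⟨t, le_rfl, t, hn, le_rfl⟩

theorem nonOsc_AE {N M : ℕ → Set (Cond μ)} {x y : ℕ → Set Ω} (hx : Meas x) (hy : Meas y)
    (hN : ∀ i, meets (N i) = AE μ (x i)) (hM : ∀ i, meets (M i) = AE μ (y i)) :
    NonOsc N M = AE μ {ω | ∀ j : ℕ, ∃ n : ℕ, ∀ m, ∀ A C : Finset ℕ, ¬ Close j n m A C →
      ω ∉ cut x m A ∩ cut y m C} := by
  unfold NonOsc
  simp only [cutIs_AE hx hN, cutIs_AE hy hM, fand_AE]
  have h1 : ∀ (m : ℕ) (A C : Finset ℕ), fnot (AE μ (cut x m A ∩ cut y m C)) =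
      AE μ (cut x m A ∩ cut y m C)ᶜ := fun m A C =>
    fnot_AE ((measurable_cut hx m A).inter (measurable_cut hy m C))
  simp only [h1, fall_AE]
  have h2 : ∀ j : ℕ, (fex fun n : ℕ => AE μ (⋂ m : ℕ, ⋂ A : Finset ℕ, ⋂ C : Finset ℕ,
      ⋂ (_ : ¬ Close j n m A C), (cut x m A ∩ cut y m C)ᶜ)) =
      AE μ (⋃ n : ℕ, ⋂ m : ℕ, ⋂ A : Finset ℕ, ⋂ C : Finset ℕ,
      ⋂ (_ : ¬ Close j n m A C), (cut x m A ∩ cut y m C)ᶜ) := fun j =>
    fex_AE fun n => MeasurableSet.iInter fun m => MeasurableSet.iInter fun A =>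
      MeasurableSet.iInter fun C => MeasurableSet.iInter fun _ =>
        ((measurable_cut hx m A).inter (measurable_cut hy m C)).compl
  simp only [h2, fall_AE]
  congr 1
  ext ω
  simp only [mem_iInter, mem_iUnion, mem_compl_iff, mem_ofPred_eq]

theorem exists_nonOsc (s : ℕ → Set (Cond μ)) :
    ∃ R : Set ℕ, R.Infinite ∧ ∀ p : Cond μ, p ∈ NonOsc s (chkSet μ R) := by
  have hE : ∀ i, MeasurableSet (rep (s i)) := fun i => measurable_rep (s i)
  obtain ⟨r, hr, hconv⟩ := exists_convergent (μ := μ) hE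
  refine ⟨range r, infinite_range_of_injective hr.injective, fun p => ?_⟩
  have hx : Meas fun i => rep (s i) := hE
  have hy : Meas fun i : ℕ => {_ω : Ω | i ∈ range r} := fun i => MeasurableSet.const _
  have h1 := nonOsc_AE hx hy (N := s) (M := chkSet μ (range r)) (fun i => meets_rep (s i))
    (fun i => meets_chkSet (range r) i)
  rw [h1, mem_AE_iff]
  refine hconv.mono fun ω hω _ j => ?_
  obtain ⟨l, hl⟩ := hω
  obtain ⟨N, hN⟩ := close_of_tendsto (E := fun i => rep (s i)) hr hl j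
  refine ⟨N, fun m A C hcl hmem => hcl (hN m A C ?_ ?_)⟩
  · exact mem_cut.1 hmem.1
  · exact mem_cut.1 hmem.2

theorem roscFamily (p : Cond μ) : p ∈ RoscFamily (Cond μ) (Set ℕ) := by
  classical
  refine mem_fex.2 fun q _ => ⟨q, le_rfl,
    fun R => chkSet μ (if R.Infinite then R else univ), fun k => ?_, fun s => ?_⟩
  · refine inf_chkSet ?_ q
    split_ifs with h
    · exact h
    · exact infinite_univ
  · obtain ⟨R, hR, hR'⟩ := exists_nonOsc s
    refine mem_fex.2 fun t _ => ⟨t, le_rfl, R, ?_⟩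
    simp only [if_pos hR]
    exact hR' t

end Meas

open Cardinal in
theorem exists_forcing : ∃ (K P : Type) (_ : Preorder P), Nonempty P ∧
    (∀ A : Set P, (∀ p ∈ A, ∀ q ∈ A, p ≠ q → ¬ ∃ r, r ≤ p ∧ r ≤ q) → A.Countable) ∧
    ∀ p : P, p ∈ PsiHolds P K := by
  let K : Type := Set ℕ
  let I : Type := (Order.succ #K : Cardinal.{0}).out
  have hK : ℵ₀ < #K := by
    rw [← mk_nat]
    show #ℕ < #(Set ℕ)
    rw [mk_set]
    exact cantor _
  have hI : #K < #I := by
    show #K < #((Order.succ #K : Cardinal.{0}).out)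
    rw [mk_out]
    exact Order.lt_succ _
  refine ⟨K, Random I, inferInstance, ⟨RF.mk Set.univ MeasurableSet.univ (by simp)⟩, ?_,
    fun p => ⟨roscFamily p, (phiHolds hK hI p).2⟩⟩
  intro A hA
  refine RF.countable_of_incomp (μ := coinProduct I) (fun p : A => p.1) fun p q hpq => ?_
  exact hA p.1 p.2 q.1 q.2 fun h => hpq (Subtype.ext h)

end Pool.Agent.V11242.KO
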