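import Mathlib
import Pool.Agent.V11242.RN.Ground
import Pool.Agent.V11242.KO.Defs

/-!
# The oscillation reaping number and the covering number of the null ideal
-/

set_option autoImplicit false

namespace Pool.Agent.V11242.KO

open Pool.Agent.V11242.RN MeasureTheory Set Filter Topology Cardinal

theorem rat_eq_freq {s r : Set ℕ} {m : ℕ} {A C : Finset ℕ} (hA : ∀ i, i < m → (i ∈ s ↔ i ∈ A))
    (hC : ∀ i, i < m → (i ∈ r ↔ i ∈ C)) {n : ℕ} (hn : n ≤ m) : rat A C n = freq s r n := by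
  classical
  have h1 : s ∩ r ∩ Iio n = ↑((A ∩ C).filter fun i => i < n) := by
    ext i
    simp only [mem_inter_iff, mem_Iio, Finset.coe_filter, Finset.mem_inter, mem_ofPred_eq]
    constructor
    · rintro ⟨⟨h1, h2⟩, h3⟩
      exact ⟨⟨(hA i (h3.trans_le hn)).1 h1, (hC i (h3.trans_le hn)).1 h2⟩, h3⟩
    · rintro ⟨⟨h1, h2⟩, h3⟩
      exact ⟨⟨(hA i (h3.trans_le hn)).2 h1, (hC i (h3.trans_le hn)).2 h2⟩, h3⟩
  have h2 : r ∩ Iio n = ↑(C.filter fun i => i < n) := by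
    ext i
    simp only [mem_inter_iff, mem_Iio, Finset.coe_filter, mem_ofPred_eq]
    constructor
    · rintro ⟨h2, h3⟩
      exact ⟨(hC i (h3.trans_le hn)).1 h2, h3⟩
    · rintro ⟨h2, h3⟩
      exact ⟨(hC i (h3.trans_le hn)).2 h2, h3⟩
  unfold rat freq
  rw [h1, h2, ncard_coe_finset, ncard_coe_finset]

theorem cauchySeq_freq {s r : Set ℕ} (h : NonOscFor s r) : CauchySeq (freq s r) := by
  classical
  rw [Metric.cauchySeq_iff]
  intro ε hε
  obtain ⟨j, hj⟩ := exists_nat_one_div_lt hε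
  obtain ⟨N, hN⟩ := h j
  refine ⟨N, fun n hn n' hn' => ?_⟩
  let m := max n n'
  let A : Finset ℕ := (Finset.range m).filter (· ∈ s)
  let C : Finset ℕ := (Finset.range m).filter (· ∈ r)
  have hA : ∀ i, i < m → (i ∈ s ↔ i ∈ A) := by
    intro i hi
    simp [A, hi]
  have hC : ∀ i, i < m → (i ∈ r ↔ i ∈ C) := by
    intro i hi
    simp [C, hi]
  have h1 : Close j N m A C := by
    by_contra hcl
    exact hN m A C hcl ⟨hA, hC⟩
  have h2 := h1 n n' hn (le_max_left _ _) hn' (le_max_right _ _)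
  rw [rat_eq_freq hA hC (le_max_left n n'), rat_eq_freq hA hC (le_max_right n n')] at h2
  rw [Real.dist_eq]
  exact h2.trans hj

theorem dens_eq {s r : Set ℕ} (h : NonOscFor s r) : lowerDens r s = upperDens r s := by
  obtain ⟨l, hl⟩ := cauchySeq_tendsto_of_complete (cauchySeq_freq h)
  unfold lowerDens upperDens
  rw [hl.liminf_eq, hl.limsup_eq]

theorem rOsc_le {K : Type} (h : PsiFor K) : rOsc ≤ #K := by
  obtain ⟨⟨r, hr, hr'⟩, -⟩ := h
  have h1 : rOsc ≤ #(range r) := by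
    refine csInf_le' ⟨range r, ?_, fun s _ _ => ?_, rfl⟩
    · rintro _ ⟨k, rfl⟩
      refine infinite_of_not_bddAbove fun ⟨b, hb⟩ => ?_
      obtain ⟨n, hn, hn'⟩ := hr k (b + 1)
      exact absurd (hb hn') (by omega)
    · obtain ⟨k, hk⟩ := hr' s
      exact ⟨r k, ⟨k, rfl⟩, dens_eq hk⟩
  exact h1.trans mk_range_le

theorem lt_covNull {K : Type} (h : PsiFor K) : #K < covNull := by
  have hne : {c : Cardinal.{0} | ∃ F : Set (Set (ℕ → Bool)), (∀ X ∈ F, lam X = 0) ∧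
      ⋃₀ F = Set.univ ∧ #F = c}.Nonempty := by
    refine ⟨_, range fun x : ℕ → Bool => {x}, ?_, ?_, rfl⟩
    · rintro _ ⟨x, rfl⟩
      exact lam_of_inE (inE_singleton x)
    · exact eq_univ_of_forall fun x => mem_sUnion.2 ⟨{x}, ⟨x, rfl⟩, rfl⟩
  obtain ⟨F, hF, hF', hc⟩ := csInf_mem hne
  have hc' : #F = covNull := hc
  rw [← hc', ← not_le]
  intro hle
  obtain ⟨x, hx⟩ : ∃ x, ∀ X ∈ F, x ∉ X := by
    rcases F.eq_empty_or_nonempty with rfl | ⟨X0, hX0⟩
    · exact ⟨fun _ => false, fun X hX => absurd hX (notMem_empty X)⟩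
    · obtain ⟨e⟩ : Nonempty (F ↪ K) := hle
      have hne' : Nonempty F := ⟨⟨X0, hX0⟩⟩
      choose c hc hc' using fun k : K => exists_code (hF _ (Function.invFun e k).2)
      obtain ⟨x, hx⟩ := h.2 c hc
      refine ⟨x, fun X hX hxX => ?_⟩
      have h1 := hc' (e ⟨X, hX⟩) x
      rw [Function.leftInverse_invFun e.injective] at h1
      exact hx _ (h1 hxX)
  have h1 : x ∈ ⋃₀ F := hF' ▸ mem_univ x
  obtain ⟨X, hX, hxX⟩ := mem_sUnion.1 h1
  exact hx X hX hxX

end Pool.Agent.V11242.KO
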